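import Pool.Agent.Helper42.FO.Regular
import Pool.Agent.Helper51.FO.Expr

/-!
# Order of flat outputs: the systems `sys (2P+1)` are flat
-/

namespace FlatOrder

open scoped Topology
open Filter

section ExprAt

variable {n m : ℕ}

/-- `g` is, near `p`, an analytic function of finitely many derivatives of the output. -/
def ExprAt (f : (Fin n → ℝ) → (Fin m → ℝ) → (Fin n → ℝ)) (h : Fin m → Jet n m → ℝ)
    (g : Jet n m → ℝ) (p : Jet n m) : Prop := ∃ s, Expr f h s g p

variable {f : (Fin n → ℝ) → (Fin m → ℝ) → (Fin n → ℝ)} {h : Fin m → Jet n m → ℝ}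
  {g g' : Jet n m → ℝ} {p : Jet n m}

theorem ExprAt.congr (hg : ExprAt f h g p) (he : g' =ᶠ[𝓝 p] g) : ExprAt f h g' p :=
  ⟨_, hg.choose_spec.congr he⟩

theorem exprAt_const (a : ℝ) : ExprAt f h (fun _ => a) p := ⟨0, expr_const 0 a p⟩

theorem ExprAt.add (hg : ExprAt f h g p) (hg' : ExprAt f h g' p) :
    ExprAt f h (fun q => g q + g' q) p := by
  obtain ⟨s, hs⟩ := hg
  obtain ⟨s', hs'⟩ := hg'
  exact ⟨max s s', (hs.mono (le_max_left _ _)).add (hs'.mono (le_max_right _ _))⟩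

theorem ExprAt.sub (hg : ExprAt f h g p) (hg' : ExprAt f h g' p) :
    ExprAt f h (fun q => g q - g' q) p := by
  obtain ⟨s, hs⟩ := hg
  obtain ⟨s', hs'⟩ := hg'
  exact ⟨max s s', (hs.mono (le_max_left _ _)).sub (hs'.mono (le_max_right _ _))⟩

theorem ExprAt.mul (hg : ExprAt f h g p) (hg' : ExprAt f h g' p) :
    ExprAt f h (fun q => g q * g' q) p := by
  obtain ⟨s, hs⟩ := hg
  obtain ⟨s', hs'⟩ := hg'
  exact ⟨max s s', (hs.mono (le_max_left _ _)).mul (hs'.mono (le_max_right _ _))⟩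

theorem ExprAt.div (hg : ExprAt f h g p) (hg' : ExprAt f h g' p) (h0 : g' p ≠ 0) :
    ExprAt f h (fun q => g q / g' q) p := by
  obtain ⟨s, hs⟩ := hg
  obtain ⟨s', hs'⟩ := hg'
  exact ⟨max s s', (hs.mono (le_max_left _ _)).div (hs'.mono (le_max_right _ _)) h0⟩

theorem ExprAt.neg (hg : ExprAt f h g p) : ExprAt f h (fun q => - g q) p :=
  ⟨_, hg.choose_spec.neg⟩

theorem ExprAt.log (hg : ExprAt f h g p) (h0 : g p ≠ 0) :
    ExprAt f h (fun q => Real.log (g q)) p :=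
  ⟨_, hg.choose_spec.log h0⟩

theorem ExprAt.totalDeriv
    (hf : AnalyticOnNhd ℝ (fun z : (Fin n → ℝ) × (Fin m → ℝ) => f z.1 z.2) Set.univ)
    {N : ℕ} (hh : ∀ i, Good N (h i) p)
    (hg : ExprAt f h g p) : ExprAt f h (FlatOrder.totalDeriv f g) p :=
  ⟨_, Expr.totalDeriv hf hh hg.choose_spec⟩

/-- Four functions at once. -/
theorem ExprAt.four {g1 g2 g3 g4 : Jet n m → ℝ} (h1 : ExprAt f h g1 p) (h2 : ExprAt f h g2 p)
    (h3 : ExprAt f h g3 p) (h4 : ExprAt f h g4 p) :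
    ∃ s, Expr f h s g1 p ∧ Expr f h s g2 p ∧ Expr f h s g3 p ∧ Expr f h s g4 p := by
  obtain ⟨s1, h1⟩ := h1
  obtain ⟨s2, h2⟩ := h2
  obtain ⟨s3, h3⟩ := h3
  obtain ⟨s4, h4⟩ := h4
  exact ⟨s1 + s2 + s3 + s4, h1.mono (by omega), h2.mono (by omega), h3.mono (by omega),
    h4.mono (by omega)⟩

end ExprAt

theorem expr_last {c : ℝ} {t N : ℕ} {S : Stage} {p : Jet 4 2} {h : Fin 2 → Jet 4 2 → ℝ} {s : ℕ}
    (hh : ∀ i, Good N (h i) p) (hS : StageAt c 1 t S p) (hq : totalDeriv (sys c) S.z2 p ≠ 0)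
    (h2 : 2 * S.l p - totalDeriv (sys c) (totalDeriv (sys c) S.z2) p /
      totalDeriv (sys c) S.z2 p ≠ 0)
    (h1 : Expr (sys c) h s S.z1 p) (h2' : Expr (sys c) h s S.z2 p) :
    ∃ s', Expr (sys c) h s' S.z1 p ∧ Expr (sys c) h s' S.z2 p ∧ Expr (sys c) h s' S.k p ∧
      Expr (sys c) h s' S.l p := by
  have E1 : ExprAt (sys c) h S.z1 p := ⟨s, h1⟩
  have E2 : ExprAt (sys c) h S.z2 p := ⟨s, h2'⟩
  have Ev := E1.totalDeriv (sys_analytic c) hh
  have Eq := E2.totalDeriv (sys_analytic c) hh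
  have Eq1 := Eq.totalDeriv (sys_analytic c) hh
  have Ev1 := Ev.totalDeriv (sys_analytic c) hh
  have Eg := Eq1.div Eq hq
  have Eb := Ev1.sub (Eg.mul Ev)
  obtain ⟨M, g1, g2, g3, g4⟩ := hS.good
  have G2 : GoodAt S.z2 p := ⟨M, g2⟩
  have Gq := G2.totalDeriv (sys_analytic c)
  have Gq1 := Gq.totalDeriv (sys_analytic c)
  have Gg := Gq1.div Gq hq
  have hk : S.k =ᶠ[𝓝 p] fun q => (totalDeriv (sys c) S.z1 q - S.l q) /
      totalDeriv (sys c) S.z2 q := by
    filter_upwards [hS.eq1, Gq.continuousAt.eventually_ne hq] with q e1 e2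
    rw [e1]
    field_simp
    ring
  have hl : ExprAt (sys c) h S.l p := by
    obtain ⟨s1, hs1⟩ := Eg
    obtain ⟨s2, hs2⟩ := Eb
    refine ⟨max s1 s2, Expr.quadratic (hs1.mono (le_max_left _ _)) (hs2.mono (le_max_right _ _))
      g4.continuousAt ?_ h2 Gg.continuousAt⟩
    filter_upwards [hS.eventually, hS.eq1.eventually_nhds,
      Gq.continuousAt.eventually_ne hq] with q hSq e1 e2
    obtain ⟨M, g1, g2, g3, g4⟩ := hSq.good
    have G2 : GoodAt S.z2 q := ⟨M, g2⟩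
    have Gk : GoodAt S.k q := ⟨M, g3⟩
    have Gl : GoodAt S.l q := ⟨M, g4⟩
    have Gq := G2.totalDeriv (sys_analytic c)
    have F0 := (has_add (Gl.has (prolong (sys c) q)) (has_mul (Gk.has _) (Gq.has _))).lineDeriv
    have F1 : totalDeriv (sys c) (totalDeriv (sys c) S.z1) q =
        lineDeriv ℝ (fun q => S.l q + S.k q * totalDeriv (sys c) S.z2 q) q
          (prolong (sys c) q) := (totalDeriv_congr (sys c) e1).self_of_nhds
    rw [F0] at F1
    have F2 : lineDeriv ℝ S.l q (prolong (sys c) q) = S.l q ^ 2 - 1 *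
      totalDeriv (sys c) S.z2 q * totalDeriv (sys c) S.k q := hSq.eq2.self_of_nhds
    have F3 : lineDeriv ℝ S.k q (prolong (sys c) q) = totalDeriv (sys c) S.k q := rfl
    have F4 : lineDeriv ℝ (totalDeriv (sys c) S.z2) q (prolong (sys c) q) =
      totalDeriv (sys c) (totalDeriv (sys c) S.z2) q := rfl
    have F5 := e1.self_of_nhds
    rw [F1, F2, F3, F4, F5]
    field_simp
    ring
  have hk' : ExprAt (sys c) h S.k p := ((Ev.sub hl).div Eq hq).congr hk
  exact ExprAt.four E1 E2 hk' hl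

theorem expr_back {c a : ℝ} {t N : ℕ} {S : Stage} {p : Jet 4 2} {h : Fin 2 → Jet 4 2 → ℝ}
    (hh : ∀ i, Good N (h i) p) (hS : StageAt c a t S p) (hq : totalDeriv (sys c) S.z2 p ≠ 0)
    (ha : a ≠ 0) (ha2 : a ≠ 2)
    (h1 : ∃ s, Expr (sys c) h s (S.next c a).z1 p ∧ Expr (sys c) h s (S.next c a).z2 p ∧
      Expr (sys c) h s (S.next c a).k p ∧ Expr (sys c) h s (S.next c a).l p) :
    ∃ s, Expr (sys c) h s S.z1 p ∧ Expr (sys c) h s S.z2 p ∧ Expr (sys c) h s S.k p ∧
      Expr (sys c) h s S.l p := by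
  obtain ⟨s, k1, k2, k3, k4⟩ := h1
  have K1 : ExprAt (sys c) h (S.next c a).z1 p := ⟨s, k1⟩
  have K2 : ExprAt (sys c) h (S.next c a).z2 p := ⟨s, k2⟩
  have K3 : ExprAt (sys c) h (S.next c a).k p := ⟨s, k3⟩
  have K4 : ExprAt (sys c) h (S.next c a).l p := ⟨s, k4⟩
  obtain ⟨M, g1, g2, g3, g4⟩ := hS.good
  have G2 : GoodAt S.z2 p := ⟨M, g2⟩
  have Gq := G2.totalDeriv (sys_analytic c)
  have hne := Gq.continuousAt.eventually_ne hq
  have ha2' : 2 - a ≠ 0 := sub_ne_zero.2 (Ne.symm ha2)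
  have E2 : ExprAt (sys c) h S.z2 p := K3.neg.congr (Eventually.of_forall fun q => by
    show S.z2 q = - - S.z2 q
    ring)
  have Eq := E2.totalDeriv (sys_analytic c) hh
  have Eq1 := Eq.totalDeriv (sys_analytic c) hh
  have Eg := Eq1.div Eq hq
  have El : ExprAt (sys c) h S.l p := (Eg.sub K4).congr (Eventually.of_forall fun q => by
    show S.l q = totalDeriv (sys c) (totalDeriv (sys c) S.z2) q / totalDeriv (sys c) S.z2 q -
      (totalDeriv (sys c) (totalDeriv (sys c) S.z2) q / totalDeriv (sys c) S.z2 q - S.l q)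
    ring)
  have E1 : ExprAt (sys c) h S.z1 p := by
    refine (((((exprAt_const (2 - a)).mul (K1.add (K2.mul E2))).sub
      ((exprAt_const (1 - a)).mul (Eq.log hq))).div (exprAt_const a) ha)).congr
        (Eventually.of_forall fun q => ?_)
    show S.z1 q = ((2 - a) * ((((a * S.z1 q + (1 - a) * Real.log (totalDeriv (sys c) S.z2 q)) /
      (2 - a)) - (S.next c a).z2 q * S.z2 q) + (S.next c a).z2 q * S.z2 q) -
      (1 - a) * Real.log (totalDeriv (sys c) S.z2 q)) / a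
    field_simp
    ring
  have Ek : ExprAt (sys c) h S.k p := by
    refine (((E1.totalDeriv (sys_analytic c) hh).sub El).div Eq hq).congr ?_
    filter_upwards [hS.eq1, hne] with q e1 e2
    rw [e1]
    field_simp
    ring
  exact ExprAt.four E1 E2 Ek El

theorem isFlat_sys (P : ℕ) : IsFlat (sys (2 * P + 1)) := by
  have hne2 : ∀ j : ℕ, j < P → (2 * P + 1 : ℝ) - 2 * j ≠ 2 := by
    intro j hj h
    have h1 : (2 * (P : ℤ) + 1) - 2 * (j : ℤ) = 2 := by exact_mod_cast h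
    omega
  have hne0 : ∀ j : ℕ, (2 * P + 1 : ℝ) - 2 * j ≠ 0 := by
    intro j h
    have h1 : (2 * (P : ℤ) + 1) - 2 * (j : ℤ) = 0 := by exact_mod_cast h
    omega
  obtain ⟨O, hO, hd, hreg⟩ := exists_regular (2 * P + 1) P hne2
  refine ⟨O, hO, hd, fun p hp => ?_⟩
  obtain ⟨hst, hlast⟩ := hreg p hp
  set c : ℝ := 2 * P + 1 with hc
  let h : Fin 2 → Jet 4 2 → ℝ := ![(stage c P).z1, (stage c P).z2]
  obtain ⟨N, g1, g2, g3, g4⟩ := (hst P le_rfl).1.good
  have hh : ∀ i, Good N (h i) p := by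
    intro i
    fin_cases i
    · exact g1
    · exact g2
  have hP : ∃ s, Expr (sys c) h s (stage c P).z1 p ∧ Expr (sys c) h s (stage c P).z2 p ∧
      Expr (sys c) h s (stage c P).k p ∧ Expr (sys c) h s (stage c P).l p := by
    have h1 := (hst P le_rfl).1
    have e : c - 2 * (P : ℝ) = 1 := by rw [hc]; ring
    rw [e] at h1
    exact expr_last hh h1 (hst P le_rfl).2 hlast (expr_out (h := h) 0 p) (expr_out (h := h) 1 p)
  have hall : ∀ i j : ℕ, j + i = P →
      ∃ s, Expr (sys c) h s (stage c j).z1 p ∧ Expr (sys c) h s (stage c j).z2 p ∧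
      Expr (sys c) h s (stage c j).k p ∧ Expr (sys c) h s (stage c j).l p := by
    intro i
    induction i with
    | zero =>
      intro j hj
      obtain rfl : j = P := by omega
      exact hP
    | succ i ih =>
      intro j hj
      have h1 := ih (j + 1) (by omega)
      exact expr_back hh (hst j (by omega)).1 (hst j (by omega)).2 (hne0 j)
        (hne2 j (by omega)) h1
  obtain ⟨s, e1, e2, e3, e4⟩ := hall P 0 (by omega)
  have X : ∀ i : Fin 4, ExprAt (sys c) h (fun q => q.1 i) p := by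
    intro i
    fin_cases i
    · exact ⟨s, e1⟩
    · exact ⟨s, e2⟩
    · exact ⟨s, e3⟩
    · exact ⟨s, e4⟩
  have hz : ∀ i : Fin 4, totalDeriv (sys c) (fun q : Jet 4 2 => q.1 i) =
      fun q => sys c q.1 (q.2 0) i := by
    intro i
    funext q
    exact lineDeriv_state i q _
  have U : ∀ b : Fin 2, ExprAt (sys c) h (fun q => q.2 0 b) p := by
    intro b
    fin_cases b
    · have h1 := (X 1).totalDeriv (sys_analytic c) hh
      rw [hz] at h1
      exact h1
    · have h1 := (X 2).totalDeriv (sys_analytic c) hh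
      rw [hz] at h1
      exact h1
  choose sX hX using X
  choose sU hU using U
  have hX' : ∀ i, Expr (sys c) h (∑ i, sX i + ∑ b, sU b) (fun q => q.1 i) p := fun i =>
    (hX i).mono ((Finset.single_le_sum (f := sX) (fun _ _ => Nat.zero_le _)
      (Finset.mem_univ i)).trans (Nat.le_add_right _ _))
  have hU' : ∀ b, Expr (sys c) h (∑ i, sX i + ∑ b, sU b) (fun q => q.2 0 b) p := fun b =>
    (hU b).mono ((Finset.single_le_sum (f := sU) (fun _ _ => Nat.zero_le _)
      (Finset.mem_univ b)).trans (Nat.le_add_left _ _))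
  obtain ⟨W, hW, hpW, hf⟩ := isFlatOutput_of_expr (sys_analytic c) hh hX' hU'
  exact ⟨W, hW, hpW, N, h, hf⟩

end FlatOrder
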