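import Pool.Agent.Helper42.FO.Step

/-!
# Order of flat outputs: the regular jets
-/

namespace FlatOrder

open scoped Topology
open Filter

theorem StageAt.ordq {c a : ℝ} {t : ℕ} {S : Stage} {p : Jet 4 2} (h : StageAt c a t S p) :
    ∀ᶠ q in 𝓝 p, ∀ j, t + 1 ≤ j → lineDeriv ℝ (totalDeriv (sys c) S.z2) q (eu j 0) = 0 := by
  obtain ⟨N, g1, g2, g3, g4⟩ := h.good
  have G2 : GoodAt S.z2 p := ⟨N, g2⟩
  filter_upwards [h.ord2.eventually_nhds, G2.eventually] with q hq2 hgq j hj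
  obtain ⟨i, rfl⟩ : ∃ i, j = i + 1 := ⟨j - 1, by omega⟩
  rw [ord_totalDeriv (sys_analytic c) hgq (hq2.mono fun q' h' => h' (i + 1) (by omega))]
  exact hq2.self_of_nhds i (by omega)

/-- The set where a function with nonzero differential does not vanish is open and dense. -/
theorem dense_ne_zero {n m : ℕ} {U : Set (Jet n m)} (hU : IsOpen U) (hd : Dense U)
    {g : Jet n m → ℝ} (hg : ∀ p ∈ U, GoodAt g p) (hv : ∀ p ∈ U, ∃ v, lineDeriv ℝ g p v ≠ 0) :
    IsOpen {p | p ∈ U ∧ g p ≠ 0} ∧ Dense {p | p ∈ U ∧ g p ≠ 0} := by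
  constructor
  · rw [isOpen_iff_mem_nhds]
    rintro p ⟨hp, hgp⟩
    filter_upwards [hU.mem_nhds hp, (hg p hp).continuousAt.eventually_ne hgp] with q h1 h2
    exact ⟨h1, h2⟩
  · rw [dense_iff_inter_open]
    intro V hV hne
    obtain ⟨p, hpV, hpU⟩ := (dense_iff_inter_open.1 hd) V hV hne
    by_contra hcon
    rw [Set.not_nonempty_iff_eq_empty] at hcon
    have h1 : g =ᶠ[𝓝 p] fun _ => (0 : ℝ) := by
      filter_upwards [hV.mem_nhds hpV, hU.mem_nhds hpU] with q hq1 hq2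
      by_contra h0
      have : q ∈ V ∩ {p | p ∈ U ∧ g p ≠ 0} := ⟨hq1, hq2, h0⟩
      rw [hcon] at this
      exact this
    obtain ⟨v, hv⟩ := hv p hpU
    apply hv
    rw [lineDeriv_congr h1]
    exact (HasLineDerivAt.lineDeriv (hasDerivAt_const (0 : ℝ) (0 : ℝ)))

theorem exists_regular_aux (c : ℝ) (P : ℕ) (hc : ∀ j : ℕ, j < P → c - 2 * j ≠ 2) :
    ∃ O : Set (Jet 4 2), IsOpen O ∧ Dense O ∧ ∀ p ∈ O,
      (∀ j : ℕ, j ≤ P → StageAt c (c - 2 * j) (2 * j) (stage c j) p ∧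
        totalDeriv (sys c) (stage c j).z2 p ≠ 0) := by
  -- adding the condition `q_j ≠ 0`
  have key : ∀ (j : ℕ) (U : Set (Jet 4 2)), IsOpen U → Dense U →
      (∀ p ∈ U, StageAt c (c - 2 * j) (2 * j) (stage c j) p) →
      IsOpen {p | p ∈ U ∧ totalDeriv (sys c) (stage c j).z2 p ≠ 0} ∧
      Dense {p | p ∈ U ∧ totalDeriv (sys c) (stage c j).z2 p ≠ 0} := by
    intro j U hU hd hS
    refine dense_ne_zero hU hd ?_ ?_
    · intro p hp
      obtain ⟨N, g1, g2, g3, g4⟩ := (hS p hp).good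
      exact GoodAt.totalDeriv (sys_analytic c) ⟨N, g2⟩
    · intro p hp
      exact ⟨_, (hS p hp).top⟩
  induction P with
  | zero =>
    obtain ⟨h1, h2⟩ := key 0 Set.univ isOpen_univ dense_univ (fun p _ => by
      have := stageAt_zero c p
      simpa [stage] using this)
    refine ⟨_, h1, h2, ?_⟩
    rintro p ⟨-, hp⟩ j hj
    obtain rfl : j = 0 := by omega
    refine ⟨?_, hp⟩
    have := stageAt_zero c p
    simpa [stage] using this
  | succ P ih =>
    obtain ⟨O, hO, hd, h⟩ := ih (fun j hj => hc j (by omega))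
    have hs : ∀ p ∈ O, StageAt c (c - 2 * (P + 1 : ℕ)) (2 * (P + 1)) (stage c (P + 1)) p := by
      intro p hp
      obtain ⟨h1, h2⟩ := h p hp P le_rfl
      have h3 := h1.next h2 (hc P (by omega))
      have e : c - 2 * (P : ℝ) - 2 = c - 2 * (P + 1 : ℕ) := by push_cast; ring
      rw [e] at h3
      exact h3
    obtain ⟨h1, h2⟩ := key (P + 1) O hO hd hs
    refine ⟨_, h1, h2, ?_⟩
    rintro p ⟨hp, hq⟩ j hj
    rcases Nat.lt_or_ge j (P + 1) with hj' | hj'
    · exact h p hp j (by omega)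
    · obtain rfl : j = P + 1 := by omega
      exact ⟨hs p hp, hq⟩

theorem exists_regular (c : ℝ) (P : ℕ) (hc : ∀ j : ℕ, j < P → c - 2 * j ≠ 2) :
    ∃ O : Set (Jet 4 2), IsOpen O ∧ Dense O ∧ ∀ p ∈ O,
      (∀ j : ℕ, j ≤ P → StageAt c (c - 2 * j) (2 * j) (stage c j) p ∧
        totalDeriv (sys c) (stage c j).z2 p ≠ 0) ∧
      2 * (stage c P).l p - totalDeriv (sys c) (totalDeriv (sys c) (stage c P).z2) p /
        totalDeriv (sys c) (stage c P).z2 p ≠ 0 := by
  obtain ⟨O, hO, hd, h⟩ := exists_regular_aux c P hc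
  have hgood : ∀ p ∈ O, GoodAt (fun p => 2 * (stage c P).l p -
      totalDeriv (sys c) (totalDeriv (sys c) (stage c P).z2) p /
        totalDeriv (sys c) (stage c P).z2 p) p := by
    intro p hp
    obtain ⟨h1, h2⟩ := h p hp P le_rfl
    obtain ⟨N, g1, g2, g3, g4⟩ := h1.good
    have G2 : GoodAt (stage c P).z2 p := ⟨N, g2⟩
    have Gq := G2.totalDeriv (sys_analytic c)
    have Gq1 := Gq.totalDeriv (sys_analytic c)
    exact ((goodAt_const 2 p).mul ⟨N, g4⟩).sub (Gq1.div Gq h2)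
  obtain ⟨h1, h2⟩ := dense_ne_zero hO hd hgood (fun p hp => by
    refine ⟨eu (2 * P + 1) 0, ?_⟩
    obtain ⟨h1, h2⟩ := h p hp P le_rfl
    obtain ⟨N, g1, g2, g3, g4⟩ := h1.good
    have G2 : GoodAt (stage c P).z2 p := ⟨N, g2⟩
    have Gl : GoodAt (stage c P).l p := ⟨N, g4⟩
    have Gq := G2.totalDeriv (sys_analytic c)
    have Gq1 := Gq.totalDeriv (sys_analytic c)
    have E := (has_sub (has_const_mul 2 (Gl.has (eu (2 * P + 1) 0)))
      (has_div (Gq1.has _) (Gq.has _) h2)).lineDeriv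
    rw [E]
    rw [ord_totalDeriv (sys_analytic c) Gq (h1.ordq.mono fun q hq => hq (2 * P + 1) (by omega)),
      h1.ordq.self_of_nhds (2 * P + 1) (by omega), h1.ordl.self_of_nhds (2 * P + 1) (by omega)]
    have h3 := h1.top
    intro h0
    apply h3
    have h4 : lineDeriv ℝ (totalDeriv (sys c) (stage c P).z2) p (eu (2 * P) 0) *
        totalDeriv (sys c) (stage c P).z2 p = 0 := by
      field_simp at h0
      linarith
    exact (mul_eq_zero.1 h4).resolve_right h2)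
  refine ⟨_, h1, h2, ?_⟩
  rintro p ⟨hp, hq⟩
  exact ⟨h p hp, hq⟩

end FlatOrder
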