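import Pool.Agent.Helper62.FO.Stage
import Pool.Agent.Helper62.FO.Sys
import Pool.Agent.Helper51.FO.Calc

/-!
# Order of flat outputs: the transformation step
-/

namespace FlatOrder

open scoped Topology
open Filter

section General

variable {n m : ℕ}

/-- `g` is good at `p` for some finite order. -/
def GoodAt (g : Jet n m → ℝ) (p : Jet n m) : Prop := ∃ N, Good N g p

theorem GoodAt.congr {g g' : Jet n m → ℝ} {p : Jet n m} (hg : GoodAt g p)
    (h : g' =ᶠ[𝓝 p] g) : GoodAt g' p :=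
  ⟨_, hg.choose_spec.congr h⟩

theorem GoodAt.eventually {g : Jet n m → ℝ} {p : Jet n m} (hg : GoodAt g p) :
    ∀ᶠ p' in 𝓝 p, GoodAt g p' := by
  obtain ⟨N, h⟩ := hg
  exact h.eventually.mono fun p' h' => ⟨N, h'⟩

theorem GoodAt.continuousAt {g : Jet n m → ℝ} {p : Jet n m} (hg : GoodAt g p) :
    ContinuousAt g p := hg.choose_spec.continuousAt

theorem GoodAt.lineDeriv {g : Jet n m → ℝ} {p : Jet n m} (hg : GoodAt g p) (v : Jet n m) :
    GoodAt (fun p' => lineDeriv ℝ g p' v) p :=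
  ⟨_, hg.choose_spec.lineDeriv_good v⟩

theorem GoodAt.totalDeriv {f : (Fin n → ℝ) → (Fin m → ℝ) → (Fin n → ℝ)}
    (hf : AnalyticOnNhd ℝ (fun z : (Fin n → ℝ) × (Fin m → ℝ) => f z.1 z.2) Set.univ)
    {g : Jet n m → ℝ} {p : Jet n m} (hg : GoodAt g p) : GoodAt (totalDeriv f g) p :=
  ⟨_, hg.choose_spec.totalDeriv_good hf⟩

theorem GoodAt.has {g : Jet n m → ℝ} {p : Jet n m} (hg : GoodAt g p) (v : Jet n m) :
    HasLineDerivAt ℝ g (_root_.lineDeriv ℝ g p v) p v :=
  (hg.choose_spec.lineDifferentiableAt v).hasLineDerivAt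

/-- Composition with an analytic function of two variables. -/
theorem GoodAt.comp2 {g h : Jet n m → ℝ} {p : Jet n m} (hg : GoodAt g p) (hh : GoodAt h p)
    {Φ : (Fin 2 → ℝ) → ℝ} (hΦ : AnalyticAt ℝ Φ ![g p, h p]) :
    GoodAt (fun q => Φ ![g q, h q]) p := by
  obtain ⟨N, hN⟩ := hg
  obtain ⟨M, hM⟩ := hh
  have h1 : ∀ i : Fin 2, Good (max N M) ((![g, h] : Fin 2 → Jet n m → ℝ) i) p := by
    intro i
    fin_cases i
    · exact hN.mono (le_max_left _ _)
    · exact hM.mono (le_max_right _ _)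
  have e : ∀ q, (fun i => (![g, h] : Fin 2 → Jet n m → ℝ) i q) = ![g q, h q] := by
    intro q
    funext i
    fin_cases i <;> rfl
  have h2 := Good.comp h1 (Φ := Φ) (by rw [e]; exact hΦ)
  simp only [e] at h2
  exact ⟨_, h2⟩

theorem analyticAt_coord {k : ℕ} (i : Fin k) (x : Fin k → ℝ) :
    AnalyticAt ℝ (fun y : Fin k → ℝ => y i) x :=
  (ContinuousLinearMap.proj (R := ℝ) (φ := fun _ : Fin k => ℝ) i).analyticAt x

theorem GoodAt.add {g h : Jet n m → ℝ} {p : Jet n m} (hg : GoodAt g p) (hh : GoodAt h p) :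
    GoodAt (fun q => g q + h q) p :=
  hg.comp2 hh (Φ := fun x => x 0 + x 1) ((analyticAt_coord 0 _).fun_add (analyticAt_coord 1 _))

theorem GoodAt.sub {g h : Jet n m → ℝ} {p : Jet n m} (hg : GoodAt g p) (hh : GoodAt h p) :
    GoodAt (fun q => g q - h q) p :=
  hg.comp2 hh (Φ := fun x => x 0 - x 1) ((analyticAt_coord 0 _).fun_sub (analyticAt_coord 1 _))

theorem GoodAt.mul {g h : Jet n m → ℝ} {p : Jet n m} (hg : GoodAt g p) (hh : GoodAt h p) :
    GoodAt (fun q => g q * h q) p :=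
  hg.comp2 hh (Φ := fun x => x 0 * x 1) ((analyticAt_coord 0 _).fun_mul (analyticAt_coord 1 _))

theorem GoodAt.div {g h : Jet n m → ℝ} {p : Jet n m} (hg : GoodAt g p) (hh : GoodAt h p)
    (h0 : h p ≠ 0) : GoodAt (fun q => g q / h q) p :=
  hg.comp2 hh (Φ := fun x => x 0 / x 1)
    ((analyticAt_coord 0 _).fun_div (analyticAt_coord 1 _) (by simpa using h0))

theorem goodAt_const (a : ℝ) (p : Jet n m) : GoodAt (fun _ => a) p := ⟨0, good_const 0 a p⟩

theorem analyticAt_log_of_ne {x : ℝ} (hx : x ≠ 0) : AnalyticAt ℝ Real.log x := by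
  rcases lt_or_gt_of_ne hx with h | h
  · have h1 : AnalyticAt ℝ (fun y : ℝ => Real.log (-y)) x :=
      AnalyticAt.log (analyticAt_id.neg) (by simpa using h)
    exact h1.congr (Eventually.of_forall fun y => Real.log_neg_eq_log y)
  · exact AnalyticAt.log analyticAt_id h

theorem GoodAt.log {g : Jet n m → ℝ} {p : Jet n m} (hg : GoodAt g p) (h0 : g p ≠ 0) :
    GoodAt (fun q => Real.log (g q)) p := by
  have h1 : AnalyticAt ℝ (fun x : Fin 2 → ℝ => Real.log (x 0)) ![g p, g p] := by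
    refine AnalyticAt.fun_comp (g := Real.log) (f := fun x : Fin 2 → ℝ => x 0) ?_
      (analyticAt_coord 0 _)
    exact analyticAt_log_of_ne (by simpa using h0)
  exact hg.comp2 hg (Φ := fun x => Real.log (x 0)) h1

theorem GoodAt.neg {g : Jet n m → ℝ} {p : Jet n m} (hg : GoodAt g p) :
    GoodAt (fun q => - g q) p := by
  have := (goodAt_const 0 p).sub hg
  simpa using this

/-- Line derivative at a point of the set of values. -/
theorem has_add {g h : Jet n m → ℝ} {p v : Jet n m} {g' h' : ℝ} (hg : HasLineDerivAt ℝ g g' p v)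
    (hh : HasLineDerivAt ℝ h h' p v) : HasLineDerivAt ℝ (fun q => g q + h q) (g' + h') p v :=
  HasDerivAt.fun_add hg hh

theorem has_sub {g h : Jet n m → ℝ} {p v : Jet n m} {g' h' : ℝ} (hg : HasLineDerivAt ℝ g g' p v)
    (hh : HasLineDerivAt ℝ h h' p v) : HasLineDerivAt ℝ (fun q => g q - h q) (g' - h') p v :=
  HasDerivAt.fun_sub hg hh

theorem has_neg {g : Jet n m → ℝ} {p v : Jet n m} {g' : ℝ} (hg : HasLineDerivAt ℝ g g' p v) :
    HasLineDerivAt ℝ (fun q => - g q) (- g') p v :=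
  HasDerivAt.fun_neg hg

theorem has_mul {g h : Jet n m → ℝ} {p v : Jet n m} {g' h' : ℝ} (hg : HasLineDerivAt ℝ g g' p v)
    (hh : HasLineDerivAt ℝ h h' p v) :
    HasLineDerivAt ℝ (fun q => g q * h q) (g' * h p + g p * h') p v := by
  have h1 := HasDerivAt.fun_mul hg hh
  simpa [HasLineDerivAt] using h1

theorem has_const_mul {g : Jet n m → ℝ} {p v : Jet n m} {g' : ℝ} (a : ℝ)
    (hg : HasLineDerivAt ℝ g g' p v) :
    HasLineDerivAt ℝ (fun q => a * g q) (a * g') p v :=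
  HasDerivAt.const_mul a hg

theorem has_div {g h : Jet n m → ℝ} {p v : Jet n m} {g' h' : ℝ} (hg : HasLineDerivAt ℝ g g' p v)
    (hh : HasLineDerivAt ℝ h h' p v) (h0 : h p ≠ 0) :
    HasLineDerivAt ℝ (fun q => g q / h q) ((g' * h p - g p * h') / h p ^ 2) p v := by
  have h1 := HasDerivAt.fun_div hg hh (by simpa using h0)
  simpa [HasLineDerivAt] using h1

theorem has_div_const {g : Jet n m → ℝ} {p v : Jet n m} {g' : ℝ} (a : ℝ)
    (hg : HasLineDerivAt ℝ g g' p v) :
    HasLineDerivAt ℝ (fun q => g q / a) (g' / a) p v :=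
  HasDerivAt.div_const hg a

theorem has_log {g : Jet n m → ℝ} {p v : Jet n m} {g' : ℝ} (hg : HasLineDerivAt ℝ g g' p v)
    (h0 : g p ≠ 0) : HasLineDerivAt ℝ (fun q => Real.log (g q)) (g' / g p) p v := by
  have h1 := HasDerivAt.log hg (by simpa using h0)
  simpa [HasLineDerivAt] using h1

/-- `∂_j (D x) = D (∂_j x) + ∂_(j-1) x`. -/
theorem lineDeriv_totalDeriv_eu {f : (Fin n → ℝ) → (Fin m → ℝ) → (Fin n → ℝ)}
    (hf : AnalyticOnNhd ℝ (fun z : (Fin n → ℝ) × (Fin m → ℝ) => f z.1 z.2) Set.univ)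
    {g : Jet n m → ℝ} {p : Jet n m} (hg : GoodAt g p) (j : ℕ) (b : Fin m) :
    lineDeriv ℝ (totalDeriv f g) p (eu (j + 1) b) =
      totalDeriv f (fun q => lineDeriv ℝ g q (eu (j + 1) b)) p + lineDeriv ℝ g p (eu j b) := by
  rw [lineDeriv_totalDeriv hf hg.choose_spec]
  congr 2
  unfold dprolong eu
  refine Prod.ext ?_ ?_
  · have : (((0 : Fin n → ℝ), (Pi.single (j + 1) (Pi.single b 1) : ℕ → Fin m → ℝ) 0) :
        (Fin n → ℝ) × (Fin m → ℝ)) = 0 := by
      rw [Pi.single_eq_of_ne (by omega)]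
      rfl
    show fderiv ℝ _ _ _ = 0
    simp only [this, map_zero]
  · funext i
    by_cases h : i = j
    · subst h
      simp
    · simp only
      rw [Pi.single_eq_of_ne (by omega), Pi.single_eq_of_ne h]

/-- Orders of the total derivative. -/
theorem ord_totalDeriv {f : (Fin n → ℝ) → (Fin m → ℝ) → (Fin n → ℝ)}
    (hf : AnalyticOnNhd ℝ (fun z : (Fin n → ℝ) × (Fin m → ℝ) => f z.1 z.2) Set.univ)
    {g : Jet n m → ℝ} {p : Jet n m} (hg : GoodAt g p) {j : ℕ} {b : Fin m}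
    (ho : ∀ᶠ q in 𝓝 p, lineDeriv ℝ g q (eu (j + 1) b) = 0) :
    lineDeriv ℝ (totalDeriv f g) p (eu (j + 1) b) = lineDeriv ℝ g p (eu j b) := by
  rw [lineDeriv_totalDeriv_eu hf hg]
  have h1 : (fun q => lineDeriv ℝ g q (eu (j + 1) b)) =ᶠ[𝓝 p] fun _ => (0 : ℝ) := ho
  have h2 := (totalDeriv_congr f h1).self_of_nhds
  rw [h2]
  have h3 : totalDeriv f (fun _ : Jet n m => (0 : ℝ)) p = 0 := by
    unfold totalDeriv
    exact (HasLineDerivAt.lineDeriv (hasDerivAt_const (0 : ℝ) (0 : ℝ)))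
  rw [h3, zero_add]

end General

/-- Derivative of the new `z2` in a direction. -/
theorem has_next_z2 {c a : ℝ} {S : Stage} {p v : Jet 4 2} {l' k' q' q1' : ℝ}
    (hl : HasLineDerivAt ℝ S.l l' p v) (hk : HasLineDerivAt ℝ S.k k' p v)
    (hq : HasLineDerivAt ℝ (totalDeriv (sys c) S.z2) q' p v)
    (hq1 : HasLineDerivAt ℝ (totalDeriv (sys c) (totalDeriv (sys c) S.z2)) q1' p v)
    (h0 : totalDeriv (sys c) S.z2 p ≠ 0) (ha : (2 - a) ≠ 0) :
    HasLineDerivAt ℝ (S.next c a).z2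
      (((2 * l' + (a * k' * totalDeriv (sys c) S.z2 p + a * S.k p * q') -
        (q1' * totalDeriv (sys c) S.z2 p - totalDeriv (sys c) (totalDeriv (sys c) S.z2) p * q') /
          totalDeriv (sys c) S.z2 p ^ 2) * ((2 - a) * totalDeriv (sys c) S.z2 p) -
        (2 * S.l p + a * S.k p * totalDeriv (sys c) S.z2 p -
      totalDeriv (sys c) (totalDeriv (sys c) S.z2) p / totalDeriv (sys c) S.z2 p) *
        ((2 - a) * q')) / ((2 - a) * totalDeriv (sys c) S.z2 p) ^ 2) p v := by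
  exact has_div (has_sub (has_add (has_const_mul 2 hl) (has_mul (has_const_mul a hk) hq))
    (has_div hq1 hq h0)) (has_const_mul (2 - a) hq) (mul_ne_zero ha h0)

/-- Derivative of the new `l` in a direction. -/
theorem has_next_l {c a : ℝ} {S : Stage} {p v : Jet 4 2} {l' q' q1' : ℝ}
    (hl : HasLineDerivAt ℝ S.l l' p v)
    (hq : HasLineDerivAt ℝ (totalDeriv (sys c) S.z2) q' p v)
    (hq1 : HasLineDerivAt ℝ (totalDeriv (sys c) (totalDeriv (sys c) S.z2)) q1' p v)
    (h0 : totalDeriv (sys c) S.z2 p ≠ 0) :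
    HasLineDerivAt ℝ (S.next c a).l
      ((q1' * totalDeriv (sys c) S.z2 p - totalDeriv (sys c) (totalDeriv (sys c) S.z2) p * q') /
          totalDeriv (sys c) S.z2 p ^ 2 - l') p v :=
  has_sub (has_div hq1 hq h0) hl

/-- Derivative of the new `z1` in a direction. -/
theorem has_next_z1 {c a : ℝ} {S : Stage} {p v : Jet 4 2} {z1' z2' q' κ' : ℝ}
    (hz1 : HasLineDerivAt ℝ S.z1 z1' p v) (hz2 : HasLineDerivAt ℝ S.z2 z2' p v)
    (hq : HasLineDerivAt ℝ (totalDeriv (sys c) S.z2) q' p v)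
    (hκ : HasLineDerivAt ℝ (S.next c a).z2 κ' p v)
    (h0 : totalDeriv (sys c) S.z2 p ≠ 0) :
    HasLineDerivAt ℝ (S.next c a).z1
      ((a * z1' + (1 - a) * (q' / totalDeriv (sys c) S.z2 p)) / (2 - a) -
        (κ' * S.z2 p + (S.next c a).z2 p * z2')) p v :=
  has_sub (has_div_const (2 - a) (has_add (has_const_mul a hz1)
    (has_const_mul (1 - a) (has_log hq h0)))) (has_mul hκ hz2)

theorem stageAt_zero (c : ℝ) (p : Jet 4 2) : StageAt c c 0 stage0 p := by
  have hz : ∀ i : Fin 4, totalDeriv (sys c) (fun q : Jet 4 2 => q.1 i) =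
      fun q => sys c q.1 (q.2 0) i := by
    intro i
    funext q
    exact lineDeriv_state i q _
  have hs : ∀ (i : Fin 4) (q : Jet 4 2) (j : ℕ), lineDeriv ℝ (fun q : Jet 4 2 => q.1 i) q
      (eu j 0) = 0 := by
    intro i q j
    rw [lineDeriv_state]
    rfl
  refine ⟨⟨0, good_state 0 0 p, good_state 0 1 p, good_state 0 2 p, good_state 0 3 p⟩, ?_, ?_,
    Eventually.of_forall fun q j _ => hs 1 q j, Eventually.of_forall fun q j _ => hs 2 q j,
    Eventually.of_forall fun q j _ => hs 3 q j, ?_⟩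
  · refine Eventually.of_forall fun q => ?_
    show totalDeriv (sys c) (fun q : Jet 4 2 => q.1 0) q =
      q.1 3 + q.1 2 * totalDeriv (sys c) (fun q : Jet 4 2 => q.1 1) q
    rw [hz, hz]
    rfl
  · refine Eventually.of_forall fun q => ?_
    show totalDeriv (sys c) (fun q : Jet 4 2 => q.1 3) q =
      q.1 3 ^ 2 - c * totalDeriv (sys c) (fun q : Jet 4 2 => q.1 1) q *
        totalDeriv (sys c) (fun q : Jet 4 2 => q.1 2) q
    rw [hz, hz, hz]
    rfl
  · show lineDeriv ℝ (totalDeriv (sys c) (fun q : Jet 4 2 => q.1 1)) p (eu 0 0) ≠ 0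
    rw [hz]
    show lineDeriv ℝ (fun q : Jet 4 2 => q.2 0 0) p (eu 0 0) ≠ 0
    rw [lineDeriv_input]
    simp [eu]

theorem StageAt.eventually {c a : ℝ} {t : ℕ} {S : Stage} {p : Jet 4 2} (h : StageAt c a t S p) :
    ∀ᶠ p' in 𝓝 p, StageAt c a t S p' := by
  obtain ⟨N, h1, h2, h3, h4⟩ := h.good
  have hc : ContinuousAt (fun p' => lineDeriv ℝ (totalDeriv (sys c) S.z2) p' (eu t 0)) p :=
    (((show GoodAt S.z2 p from ⟨N, h2⟩).totalDeriv (sys_analytic c)).lineDeriv _).continuousAt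
  have h5 := hc.eventually_ne h.top
  filter_upwards [h1.eventually, h2.eventually, h3.eventually, h4.eventually,
    h.eq1.eventually_nhds, h.eq2.eventually_nhds, h.ord2.eventually_nhds,
    h.ordk.eventually_nhds, h.ordl.eventually_nhds, h5] with q g1 g2 g3 g4 e1 e2 o2 ok ol ht
  exact ⟨⟨N, g1, g2, g3, g4⟩, e1, e2, o2, ok, ol, ht⟩

/-- The pointwise form of the step. -/
theorem StageAt.next_aux {c a : ℝ} {t : ℕ} {S : Stage} {p : Jet 4 2} (h : StageAt c a t S p)
    (hq : totalDeriv (sys c) S.z2 p ≠ 0) (ha : a ≠ 2) :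
    (GoodAt (S.next c a).z1 p ∧ GoodAt (S.next c a).z2 p ∧ GoodAt (S.next c a).k p ∧
      GoodAt (S.next c a).l p) ∧
    totalDeriv (sys c) (S.next c a).z1 p = (S.next c a).l p +
      (S.next c a).k p * totalDeriv (sys c) (S.next c a).z2 p ∧
    totalDeriv (sys c) (S.next c a).l p = (S.next c a).l p ^ 2 -
      (a - 2) * totalDeriv (sys c) (S.next c a).z2 p * totalDeriv (sys c) (S.next c a).k p ∧
    (∀ j, t + 2 ≤ j → lineDeriv ℝ (S.next c a).z2 p (eu j 0) = 0) ∧
    (∀ j, t + 2 ≤ j → lineDeriv ℝ (S.next c a).k p (eu j 0) = 0) ∧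
    (∀ j, t + 2 ≤ j → lineDeriv ℝ (S.next c a).l p (eu j 0) = 0) ∧
    lineDeriv ℝ (S.next c a).z2 p (eu (t + 1) 0) ≠ 0 := by
  obtain ⟨N, g1, g2, g3, g4⟩ := h.good
  have G1 : GoodAt S.z1 p := ⟨N, g1⟩
  have G2 : GoodAt S.z2 p := ⟨N, g2⟩
  have Gk : GoodAt S.k p := ⟨N, g3⟩
  have Gl : GoodAt S.l p := ⟨N, g4⟩
  have Gq : GoodAt (totalDeriv (sys c) S.z2) p := G2.totalDeriv (sys_analytic c)
  have Gq1 : GoodAt (totalDeriv (sys c) (totalDeriv (sys c) S.z2)) p :=
    Gq.totalDeriv (sys_analytic c)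
  have ha2 : (2 - a) ≠ 0 := sub_ne_zero.2 (Ne.symm ha)
  have GK : GoodAt (S.next c a).z2 p := by
    refine GoodAt.div (GoodAt.sub (GoodAt.add ((goodAt_const 2 p).mul Gl)
      (((goodAt_const a p).mul Gk).mul Gq)) (Gq1.div Gq hq)) ((goodAt_const (2 - a) p).mul Gq) ?_
    exact mul_ne_zero ha2 hq
  have GLn : GoodAt (S.next c a).l p := (Gq1.div Gq hq).sub Gl
  have GKn : GoodAt (S.next c a).k p := show GoodAt (fun q => - S.z2 q) p from G2.neg
  have GZ : GoodAt (S.next c a).z1 p :=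
    ((((goodAt_const a p).mul G1).add ((goodAt_const (1 - a) p).mul (Gq.log hq))).div
      (goodAt_const (2 - a) p) ha2).sub (GK.mul G2)
  -- orders
  have oq : ∀ᶠ q in 𝓝 p, ∀ j, t + 1 ≤ j →
      lineDeriv ℝ (totalDeriv (sys c) S.z2) q (eu j 0) = 0 := by
    filter_upwards [h.ord2.eventually_nhds, G2.eventually] with q hq2 hgq j hj
    obtain ⟨i, rfl⟩ : ∃ i, j = i + 1 := ⟨j - 1, by omega⟩
    rw [ord_totalDeriv (sys_analytic c) hgq (hq2.mono fun q' h' => h' (i + 1) (by omega))]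
    exact hq2.self_of_nhds i (by omega)
  have oq1 : ∀ j, t + 1 ≤ j → lineDeriv ℝ (totalDeriv (sys c) (totalDeriv (sys c) S.z2)) p
      (eu j 0) = lineDeriv ℝ (totalDeriv (sys c) S.z2) p (eu (j - 1) 0) := by
    intro j hj
    obtain ⟨i, rfl⟩ : ∃ i, j = i + 1 := ⟨j - 1, by omega⟩
    rw [ord_totalDeriv (sys_analytic c) Gq (oq.mono fun q' h' => h' (i + 1) (by omega))]
    rfl
  have o2 := h.ord2.self_of_nhds
  have ok := h.ordk.self_of_nhds
  have ol := h.ordl.self_of_nhds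
  have oq0 := oq.self_of_nhds
  refine ⟨⟨GZ, GK, GKn, GLn⟩, ?_, ?_, ?_, ?_, ?_, ?_⟩
  · have E1 : totalDeriv (sys c) (S.next c a).z1 p = _ :=
      (has_next_z1 (a := a) (G1.has (prolong (sys c) p)) (G2.has _) (Gq.has _) (GK.has _)
        hq).lineDeriv
    have e1 : lineDeriv ℝ S.z1 p (prolong (sys c) p) = S.l p + S.k p *
      totalDeriv (sys c) S.z2 p := h.eq1.self_of_nhds
    have e3 : lineDeriv ℝ S.z2 p (prolong (sys c) p) = totalDeriv (sys c) S.z2 p := rfl
    have e4 : lineDeriv ℝ (totalDeriv (sys c) S.z2) p (prolong (sys c) p) =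
      totalDeriv (sys c) (totalDeriv (sys c) S.z2) p := rfl
    have e5 : lineDeriv ℝ (S.next c a).z2 p (prolong (sys c) p) =
      totalDeriv (sys c) (S.next c a).z2 p := rfl
    have e6 : (S.next c a).z2 p = (2 * S.l p + a * S.k p * totalDeriv (sys c) S.z2 p -
      totalDeriv (sys c) (totalDeriv (sys c) S.z2) p / totalDeriv (sys c) S.z2 p) /
      ((2 - a) * totalDeriv (sys c) S.z2 p) := rfl
    have e7 : (S.next c a).l p = totalDeriv (sys c) (totalDeriv (sys c) S.z2) p /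
      totalDeriv (sys c) S.z2 p - S.l p := rfl
    have e8 : (S.next c a).k p = - S.z2 p := rfl
    rw [E1, e1, e3, e4, e5, e6, e7, e8]
    generalize totalDeriv (sys c) (S.next c a).z2 p = X
    generalize totalDeriv (sys c) (totalDeriv (sys c) S.z2) p = q1
    generalize totalDeriv (sys c) S.z2 p = q0 at hq ⊢
    field_simp
    ring
  · have E1 : totalDeriv (sys c) (S.next c a).l p = _ :=
      (has_next_l (a := a) (Gl.has (prolong (sys c) p)) (Gq.has _) (Gq1.has _) hq).lineDeriv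
    have E2 : totalDeriv (sys c) (S.next c a).z2 p = _ :=
      (has_next_z2 (a := a) (Gl.has (prolong (sys c) p)) (Gk.has _) (Gq.has _) (Gq1.has _)
        hq ha2).lineDeriv
    have E3 : totalDeriv (sys c) (S.next c a).k p = - totalDeriv (sys c) S.z2 p :=
      (has_neg (G2.has (prolong (sys c) p))).lineDeriv
    have e2 : lineDeriv ℝ S.l p (prolong (sys c) p) = S.l p ^ 2 - a *
      totalDeriv (sys c) S.z2 p * totalDeriv (sys c) S.k p := h.eq2.self_of_nhds
    have e3 : lineDeriv ℝ S.k p (prolong (sys c) p) = totalDeriv (sys c) S.k p := rfl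
    have e4 : lineDeriv ℝ (totalDeriv (sys c) S.z2) p (prolong (sys c) p) =
      totalDeriv (sys c) (totalDeriv (sys c) S.z2) p := rfl
    have e7 : (S.next c a).l p = totalDeriv (sys c) (totalDeriv (sys c) S.z2) p /
      totalDeriv (sys c) S.z2 p - S.l p := rfl
    rw [E1, E2, E3, e2, e3, e4, e7]
    generalize lineDeriv ℝ (totalDeriv (sys c) (totalDeriv (sys c) S.z2)) p
      (prolong (sys c) p) = q2
    generalize totalDeriv (sys c) (totalDeriv (sys c) S.z2) p = q1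
    generalize totalDeriv (sys c) S.z2 p = q0 at hq ⊢
    field_simp
    ring
  · intro j hj
    have E2 := (has_next_z2 (a := a) (Gl.has (eu j 0)) (Gk.has _) (Gq.has _) (Gq1.has _)
        hq ha2).lineDeriv
    rw [E2, oq1 j (by omega), oq0 (j - 1) (by omega), oq0 j (by omega), ok j (by omega),
      ol j (by omega)]
    simp
  · intro j hj
    have E2 : lineDeriv ℝ (S.next c a).k p (eu j 0) = _ := (has_neg (G2.has (eu j 0))).lineDeriv
    rw [E2, o2 j (by omega), neg_zero]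
  · intro j hj
    have E2 := (has_next_l (a := a) (Gl.has (eu j 0)) (Gq.has _) (Gq1.has _) hq).lineDeriv
    rw [E2, oq1 j (by omega), oq0 (j - 1) (by omega), oq0 j (by omega), ol j (by omega)]
    simp
  · have E2 := (has_next_z2 (a := a) (Gl.has (eu (t + 1) 0)) (Gk.has _) (Gq.has _) (Gq1.has _)
        hq ha2).lineDeriv
    rw [E2, oq1 (t + 1) le_rfl, oq0 (t + 1) le_rfl, ok (t + 1) (by omega),
      ol (t + 1) (by omega)]
    have ht := h.top
    have e : t + 1 - 1 = t := by omega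
    rw [e]
    intro h0
    rw [div_eq_zero_iff] at h0
    rcases h0 with h0 | h0
    · apply ht
      have h1 : (2 * (0 : ℝ) + (a * 0 * totalDeriv (sys c) S.z2 p + a * S.k p * 0) -
        (lineDeriv ℝ (totalDeriv (sys c) S.z2) p (eu t 0) * totalDeriv (sys c) S.z2 p -
          totalDeriv (sys c) (totalDeriv (sys c) S.z2) p * 0) / totalDeriv (sys c) S.z2 p ^ 2) *
        ((2 - a) * totalDeriv (sys c) S.z2 p) =
        - ((2 - a) * lineDeriv ℝ (totalDeriv (sys c) S.z2) p (eu t 0)) := by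
        field_simp
        ring
      rw [h1] at h0
      have h2 : (2 - a) * lineDeriv ℝ (totalDeriv (sys c) S.z2) p (eu t 0) = 0 := by
        linarith
      exact (mul_eq_zero.1 h2).resolve_left ha2
    · exact (pow_ne_zero 2 (mul_ne_zero ha2 hq)) h0

theorem StageAt.next {c a : ℝ} {t : ℕ} {S : Stage} {p : Jet 4 2} (h : StageAt c a t S p)
    (hq : totalDeriv (sys c) S.z2 p ≠ 0) (ha : a ≠ 2) :
    StageAt c (a - 2) (t + 2) (S.next c a) p := by
  have hgq : GoodAt (totalDeriv (sys c) S.z2) p := by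
    obtain ⟨N, h1, h2, h3, h4⟩ := h.good
    exact GoodAt.totalDeriv (sys_analytic c) ⟨N, h2⟩
  have hev := h.eventually
  have hq' := hgq.continuousAt.eventually_ne hq
  have key := (hev.and hq').mono fun q hq => hq.1.next_aux hq.2 ha
  obtain ⟨⟨⟨N1, g1⟩, ⟨N2, g2⟩, ⟨N3, g3⟩, ⟨N4, g4⟩⟩, -, -, -, -, -, htop⟩ := h.next_aux hq ha
  refine ⟨⟨N1 + N2 + N3 + N4, g1.mono (by omega), g2.mono (by omega), g3.mono (by omega),
    g4.mono (by omega)⟩, key.mono fun q hq => hq.2.1, key.mono fun q hq => hq.2.2.1,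
    key.mono fun q hq => hq.2.2.2.1, key.mono fun q hq => hq.2.2.2.2.1,
    key.mono fun q hq => hq.2.2.2.2.2.1, ?_⟩
  have h1 := ord_totalDeriv (sys_analytic c) (b := (0 : Fin 2)) (j := t + 1)
    (show GoodAt (S.next c a).z2 p from ⟨N2, g2⟩)
    (key.mono fun q hq => hq.2.2.2.1 (t + 2) le_rfl)
  rw [h1]
  exact htop

end FlatOrder
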